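import Mathlib

namespace Pool.Agent.Results.MP_db617b_an.Disconnected

open Set

/-- The breakpoints, with `0` and `1` added at the ends. -/
def ext {k : ℕ} (s : Fin k → ℝ) : Fin (k + 2) → ℝ := Fin.cons 0 (Fin.snoc s 1)

/-- The parameter space. -/
def P (k : ℕ) : Set ((Fin k → ℝ) × (Fin (k + 1) → ℝ)) :=
  {p | Monotone (ext p.1) ∧ (∀ i, 0 ≤ p.2 i) ∧ ∑ i, p.2 i = 1}

/-- The coordinate of the moment map attached to the exponent `a`. -/
noncomputable def mom {k : ℕ} (a : ℕ) (p : (Fin k → ℝ) × (Fin (k + 1) → ℝ)) : ℝ :=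
  ∑ i : Fin (k + 1), p.2 i *
    ((∑ j ∈ Finset.range (a + 1), ext p.1 i.succ ^ (a - j) * ext p.1 i.castSucc ^ j) / (a + 1))

/-- The fibre of the moment map. -/
def fibre (k : ℕ) (A : Finset ℕ) (m : ℕ → ℝ) : Set ((Fin k → ℝ) × (Fin (k + 1) → ℝ)) :=
  {p | p ∈ P k ∧ ∀ a ∈ A, mom a p = m a}

lemma ext0 (s : Fin 2 → ℝ) : ext s = ![0, s 0, s 1, 1] := by
  funext i
  fin_cases i <;> rfl

lemma mono (s : Fin 2 → ℝ) (h0 : 0 ≤ s 0) (h1 : s 0 ≤ s 1) (h2 : s 1 ≤ 1) : Monotone (ext s) := by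
  rw [ext0, Fin.monotone_iff_le_succ]
  intro i
  fin_cases i <;> simpa

theorem result : ∃ m : ℕ → ℝ, ¬ IsPreconnected (fibre 2 {1, 2, 3} m) := by
  let p1 : (Fin 2 → ℝ) × (Fin 3 → ℝ) := (![1 / 5, 2 / 5], ![12 / 50, 17 / 50, 21 / 50])
  let p2 : (Fin 2 → ℝ) × (Fin 3 → ℝ) := (![3 / 5, 4 / 5], ![39 / 50, 3 / 50, 8 / 50])
  refine ⟨fun a => mom a p1, fun h => ?_⟩
  have h1 : p1 ∈ fibre 2 {1, 2, 3} fun a => mom a p1 := by
    refine ⟨⟨mono _ ?_ ?_ ?_, fun i => ?_, ?_⟩, fun _ _ => rfl⟩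
    · norm_num [p1]
    · norm_num [p1]
    · norm_num [p1]
    · fin_cases i <;> norm_num [p1]
    · simp [p1, Fin.sum_univ_three]; norm_num
  have h2 : p2 ∈ fibre 2 {1, 2, 3} fun a => mom a p1 := by
    refine ⟨⟨mono _ ?_ ?_ ?_, fun i => ?_, ?_⟩, fun a ha => ?_⟩
    · norm_num [p2]
    · norm_num [p2]
    · norm_num [p2]
    · fin_cases i <;> norm_num [p2]
    · simp [p2, Fin.sum_univ_three]; norm_num
    · simp only [Finset.mem_insert, Finset.mem_singleton] at ha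
      rcases ha with rfl | rfl | rfl <;>
        simp [mom, ext0, p1, p2, Fin.sum_univ_three, Finset.sum_range_succ] <;> norm_num
  let ψ : (Fin 2 → ℝ) × (Fin 3 → ℝ) → ℝ := fun p => p.2 1 * p.1 0 - p.2 0 * (p.1 1 - p.1 0)
  have hc : Continuous ψ := by fun_prop
  obtain ⟨p, ⟨⟨-, -, hw⟩, hm⟩, hp⟩ := h.intermediate_value h2 h1 hc.continuousOn
    (show (0 : ℝ) ∈ Icc (ψ p2) (ψ p1) by simp [ψ, p1, p2]; norm_num)
  have e1 := hm 1 (by simp)
  have e2 := hm 2 (by simp)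
  have e3 := hm 3 (by simp)
  simp [mom, ext0, p1, Fin.sum_univ_three, Finset.sum_range_succ] at e1 e2 e3
  simp only [ψ] at hp
  replace hw : p.2 0 + p.2 1 + p.2 2 = 1 := by simpa [Fin.sum_univ_three] using hw
  obtain ⟨s, w⟩ := p
  simp only at e1 e2 e3 hw hp
  generalize s 0 = x at *
  generalize s 1 = y at *
  generalize w 0 = a at *
  generalize w 1 = b at *
  generalize w 2 = c at *
  have f1 : y + c = 21 / 25 := by linear_combination 2 * e1 - hp - y * hw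
  have f2 : y ^ 2 + c * (1 + y) = 19 / 25 := by
    linear_combination 3 * e2 - (x + y) * hp - y ^ 2 * hw
  have f3 : y ^ 3 + c * (1 + y + y ^ 2) = 453 / 625 := by
    linear_combination 4 * e3 - (x ^ 2 + x * y + y ^ 2) * hp - y ^ 3 * hw
  have g1 : c = 21 / 25 - y := by linarith
  subst g1
  have g2 : y = 1 / 2 := by linarith
  subst g2
  norm_num at f3

end Pool.Agent.Results.MP_db617b_an.Disconnected
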